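import Pool.Agent.Helper3.Hert.Spec

/-!
# Module HV-15: `asm_nil` and `asm_spectrum`
-/

open scoped PowerSeries

namespace Pool.Agent.Helper3.Hert

open Spec

noncomputable section

/-- The elements of `B4` have admissible exponents. -/
theorem b4_types (a b c d : ℕ) (hp : (a, b, c, d) ∈ B4) :
    ((a = 1 ∧ 1 ≤ b ∧ b ≤ 3) ∨ (a = 2 ∧ b = 1)) ∧ 0 < c ∧ c ≤ 15 ∧ 0 < d := by
  simp only [B4, Finset.mem_union, Finset.mem_filter, Finset.mem_product, Finset.mem_Icc,
    Finset.mem_singleton] at hp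
  simp only [fl] at hp
  omega

/-- The elements of `B4` on the second side of the wall have `c ≤ 5`. -/
theorem b4_wall (a b c d : ℕ) (hp : (a, b, c, d) ∈ B4)
    (h : 274 * a + 232 * b + 84 * c + 60 * d ≤ 273 * a + 234 * b + 78 * c + 65 * d) : c ≤ 5 := by
  simp only [B4, Finset.mem_union, Finset.mem_filter, Finset.mem_product, Finset.mem_Icc,
    Finset.mem_singleton] at hp
  simp only [fl] at hp
  omega

theorem nh_eq_one (a b c d : ℕ)
    (h : 273 * a + 234 * b + 78 * c + 65 * d ≤ 274 * a + 232 * b + 84 * c + 60 * d) :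
    nh (a, b, c, d) = (21 * a + 18 * b + 6 * c + 5 * d : ℚ) / 60 := by
  have h1 : H780 (a, b, c, d) = 273 * a + 234 * b + 78 * c + 65 * d := min_eq_left h
  rw [nh, h1]
  push_cast
  ring

theorem nh_eq_two (a b c d : ℕ)
    (h : 274 * a + 232 * b + 84 * c + 60 * d ≤ 273 * a + 234 * b + 78 * c + 65 * d) :
    nh (a, b, c, d) = (137 * a + 116 * b + 42 * c + 30 * d : ℚ) / 390 := by
  have h1 : H780 (a, b, c, d) = 274 * a + 232 * b + 84 * c + 60 * d := min_eq_right h
  rw [nh, h1]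
  push_cast
  ring

theorem nh_le_of (p q : ℕ × ℕ × ℕ × ℕ) (n : ℕ) (h : H780 p + 780 * n ≤ H780 q) :
    nh p + n ≤ nh q := by
  unfold nh
  have h1 : ((H780 p : ℚ) + 780 * n) ≤ H780 q := by exact_mod_cast h
  linarith

theorem nh_lt_of (p q : ℕ × ℕ × ℕ × ℕ) (n : ℕ) (h : H780 p + 780 * n < H780 q) :
    nh p + n < nh q := by
  unfold nh
  have h1 : ((H780 p : ℚ) + 780 * n) < H780 q := by exact_mod_cast h
  linarith

variable {O : Type*} [CommRing O] [IsDomain O] [Algebra ℂ O] (E : EvRing O)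

/-- abbreviation for the filtration -/
def PB (E : EvRing O) (α : ℚ) : Submodule ℂ⟦X⟧ (GM E.D E.F) :=
  Pfil (fun p : B4 => cls E.D E.F (E.mon p)) (fun p : B4 => nh p) α

theorem thetaGM_X_smul (g : GM E.D E.F) :
    thetaGM E.D E.F ((PowerSeries.X : ℂ⟦X⟧) • g)
      = (PowerSeries.X : ℂ⟦X⟧) • (thetaGM E.D E.F g + g) := by
  rw [thetaGM_smul, PowerSeries.derivative_X, mul_one, smul_add, add_comm]

theorem pb_of_X_smul (α : ℚ) (g g' : GM E.D E.F) (c : ℂ)
    (h : (PowerSeries.X : ℂ⟦X⟧) • g = c • g') (hg' : g' ∈ PB E (α + 1)) : g ∈ PB E α := by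
  have h1 : c • g' ∈ PB E (α + 1) := by
    rw [← algebraMap_smul ℂ⟦X⟧ c g']
    exact Submodule.smul_mem _ _ hg'
  rw [← h] at h1
  exact (pfil_shift _ _ α g).1 h1

theorem pb_cls (a b c d : ℕ) (hab : (a = 1 ∧ 1 ≤ b ∧ b ≤ 3) ∨ (a = 2 ∧ b = 1)) (hc : 0 < c)
    (hc' : c ≤ 15) (hd : 0 < d) (α : ℚ) (hα : α ≤ nh (a, b, c, d)) :
    cls E.D E.F (E.mon (a, b, c, d)) ∈ PB E α :=
  pfil_anti _ _ hα (asm_order E a b c d hab hc hc' hd)

/-- The first part of `asm_nil`, with the quantitative information. -/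
theorem asm_nil_one (a b c d : ℕ) (hp : (a, b, c, d) ∈ B4) (h : ℚ) (hh : h = nh (a, b, c, d)) :
    (thetaGM E.D E.F (cls E.D E.F (E.mon (a, b, c, d)))
      - (h : ℂ) • cls E.D E.F (E.mon (a, b, c, d))) ∈ PB E h := by
  obtain ⟨hab, hc, hc', hd⟩ := b4_types a b c d hp
  rcases le_total (273 * a + 234 * b + 78 * c + 65 * d) (274 * a + 232 * b + 84 * c + 60 * d)
    with hle | hle
  · have h1 := rel_theta1 E a b c d (by omega) (by omega) hc hd
    have h2 : ((h : ℚ) : ℂ) = (21 * a + 18 * b + 6 * c + 5 * d : ℂ) / 60 := by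
      rw [hh, nh_eq_one a b c d hle]
      push_cast
      ring
    rw [← h2] at h1
    refine pb_of_X_smul E h _ _ _ h1 (pb_cls E _ _ _ _ hab hc hc' (by omega) _ ?_)
    have h3 := nh_le_of (a, b, c, d) (a, b, c, d + 13) 1 (by
      simp only [H780]; omega)
    rw [hh]
    exact_mod_cast h3
  · have h1 := rel_theta2 E a b c d (by omega) (by omega) hc hd
    have h2 : ((h : ℚ) : ℂ) = (137 * a + 116 * b + 42 * c + 30 * d : ℂ) / 390 := by
      rw [hh, nh_eq_two a b c d hle]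
      push_cast
      ring
    rw [← h2] at h1
    have hc5 := b4_wall a b c d hp hle
    refine pb_of_X_smul E h _ _ _ h1 (pb_cls E _ _ _ _ hab (by omega) (by omega) hd _ ?_)
    have h3 := nh_le_of (a, b, c, d) (a, b, c + 10, d) 1 (by
      simp only [H780]; omega)
    rw [hh]
    exact_mod_cast h3

theorem pb_theta (α : ℚ) (g : GM E.D E.F) (hg : g ∈ PB E α) : thetaGM E.D E.F g ∈ PB E α := by
  refine pfil_theta _ _ _ (fun φ g => thetaGM_smul E.D E.F φ g) ?_ α g hg
  rintro ⟨⟨a, b, c, d⟩, hp⟩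
  exact asm_nil_one E a b c d hp _ rfl

theorem pb_sub (α : ℚ) (g : GM E.D E.F) (c : ℂ) (hg : g ∈ PB E α) :
    thetaGM E.D E.F g - c • g ∈ PB E α := by
  refine Submodule.sub_mem _ (pb_theta E α g hg) ?_
  rw [← algebraMap_smul ℂ⟦X⟧ c g]
  exact Submodule.smul_mem _ _ hg

theorem asm_nil_two (a b c d : ℕ) (hp : (a, b, c, d) ∈ B4) (h : ℚ) (hh : h = nh (a, b, c, d)) :
    ∃ β > h, thetaGM E.D E.F (thetaGM E.D E.F (cls E.D E.F (E.mon (a, b, c, d)))
          - (h : ℂ) • cls E.D E.F (E.mon (a, b, c, d)))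
        - (h : ℂ) • (thetaGM E.D E.F (cls E.D E.F (E.mon (a, b, c, d)))
          - (h : ℂ) • cls E.D E.F (E.mon (a, b, c, d))) ∈ PB E β := by
  obtain ⟨hab, hc, hc', hd⟩ := b4_types a b c d hp
  rcases lt_trichotomy (273 * a + 234 * b + 78 * c + 65 * d)
    (274 * a + 232 * b + 84 * c + 60 * d) with hlt | heq | hlt
  · have h1 := rel_theta1 E a b c d (by omega) (by omega) hc hd
    have h2 : ((h : ℚ) : ℂ) = (21 * a + 18 * b + 6 * c + 5 * d : ℂ) / 60 := by
      rw [hh, nh_eq_one a b c d hlt.le]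
      push_cast
      ring
    rw [← h2] at h1
    have h3 := nh_lt_of (a, b, c, d) (a, b, c, d + 13) 1 (by
      simp only [H780]; omega)
    rw [← hh] at h3
    refine ⟨nh (a, b, c, d + 13) - 1, ?_, pb_sub E _ _ _ ?_⟩
    · push_cast at h3
      linarith
    · exact pb_of_X_smul E _ _ _ _ h1 (pb_cls E _ _ _ _ hab hc hc' (by omega) _ (by
        rw [sub_add_cancel]))
  · have h1 := rel_theta1 E a b c d (by omega) (by omega) hc hd
    have h2 : ((h : ℚ) : ℂ) = (21 * a + 18 * b + 6 * c + 5 * d : ℂ) / 60 := by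
      rw [hh, nh_eq_one a b c d heq.le]
      push_cast
      ring
    have h2' : ((h : ℚ) : ℂ) = (137 * a + 116 * b + 42 * c + 30 * d : ℂ) / 390 := by
      rw [hh, nh_eq_two a b c d heq.ge]
      push_cast
      ring
    rw [← h2] at h1
    have hc5 := b4_wall a b c d hp heq.ge
    have h4 := rel_theta2 E a b c (d + 13) (by omega) (by omega) hc (by omega)
    have h5 : (137 * a + 116 * b + 42 * c + 30 * (d + 13 : ℕ) : ℂ) / 390 = (h : ℂ) + 1 := by
      rw [h2']
      push_cast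
      ring
    rw [h5] at h4
    have h3 := nh_lt_of (a, b, c, d) (a, b, c + 10, d + 13) 2 (by
      simp only [H780]; omega)
    rw [← hh] at h3
    refine ⟨nh (a, b, c + 10, d + 13) - 2, ?_, ?_⟩
    · push_cast at h3
      linarith
    · set g := thetaGM E.D E.F (cls E.D E.F (E.mon (a, b, c, d)))
        - (h : ℂ) • cls E.D E.F (E.mon (a, b, c, d)) with hg
      set w := cls E.D E.F (E.mon (a, b, c, d + 13)) with hw
      have h6 : (PowerSeries.X : ℂ⟦X⟧) • (thetaGM E.D E.F g - (h : ℂ) • g)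
          = (-(1 / 12) : ℂ) • (thetaGM E.D E.F w - ((h : ℂ) + 1) • w) := by
        have h7 := thetaGM_X_smul E g
        rw [h1, map_smul, smul_add, h1] at h7
        have h8 : (PowerSeries.X : ℂ⟦X⟧) • thetaGM E.D E.F g
            = (-(1 / 12) : ℂ) • thetaGM E.D E.F w - (-(1 / 12) : ℂ) • w := by
          rw [h7]
          abel
        rw [smul_sub, h8, smul_comm (PowerSeries.X : ℂ⟦X⟧) (h : ℂ) g, h1]
        module
      refine pb_of_X_smul E _ _ _ _ h6 ?_
      refine pb_of_X_smul E _ _ _ _ h4 (pb_cls E _ _ _ _ hab (by omega) (by omega)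
        (by omega) _ ?_)
      linarith
  · have h1 := rel_theta2 E a b c d (by omega) (by omega) hc hd
    have h2 : ((h : ℚ) : ℂ) = (137 * a + 116 * b + 42 * c + 30 * d : ℂ) / 390 := by
      rw [hh, nh_eq_two a b c d hlt.le]
      push_cast
      ring
    rw [← h2] at h1
    have hc5 := b4_wall a b c d hp hlt.le
    have h3 := nh_lt_of (a, b, c, d) (a, b, c + 10, d) 1 (by
      simp only [H780]; omega)
    rw [← hh] at h3
    refine ⟨nh (a, b, c + 10, d) - 1, ?_, pb_sub E _ _ _ ?_⟩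
    · push_cast at h3
      linarith
    · exact pb_of_X_smul E _ _ _ _ h1 (pb_cls E _ _ _ _ hab (by omega) (by omega) hd _ (by
        rw [sub_add_cancel]))

/-- ASM3: `θ - h` is nilpotent on the graded pieces. -/
theorem asm_nil (p : B4) :
    (thetaGM E.D E.F (cls E.D E.F (E.mon p)) - ((nh p : ℚ) : ℂ) • cls E.D E.F (E.mon p))
      ∈ Pfil (fun p : B4 => cls E.D E.F (E.mon p)) (fun p : B4 => nh p) (nh p) ∧
    ∃ β > nh p,
      thetaGM E.D E.F (thetaGM E.D E.F (cls E.D E.F (E.mon p))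
          - ((nh p : ℚ) : ℂ) • cls E.D E.F (E.mon p))
        - ((nh p : ℚ) : ℂ) • (thetaGM E.D E.F (cls E.D E.F (E.mon p))
          - ((nh p : ℚ) : ℂ) • cls E.D E.F (E.mon p))
      ∈ Pfil (fun p : B4 => cls E.D E.F (E.mon p)) (fun p : B4 => nh p) β := by
  obtain ⟨⟨a, b, c, d⟩, hp⟩ := p
  exact ⟨asm_nil_one E a b c d hp _ rfl, asm_nil_two E a b c d hp _ rfl⟩

theorem pb_isVFiltration : IsVFiltration (thetaGM E.D E.F)
    (Pfil (fun p : B4 => cls E.D E.F (E.mon p)) (fun p : B4 => nh p)) := by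
  refine vf_of_basis _ _ _ (fun φ g => thetaGM_smul E.D E.F φ g) (gm_u_injective E.D E.F)
    (gm_u_surjective E.D E.F) ?_ (asm_basis E).1 (fun p => asm_nil E p)
  intro g
  rw [(asm_basis E).2]
  exact gm_exhaust E.D E.F g

theorem pb_count (α : ℚ) : spec448.count α = specMult (brieskorn E.D E.F)
    (Pfil (fun p : B4 => cls E.D E.F (E.mon p)) (fun p : B4 => nh p)) α := by
  rw [← (asm_basis E).2, specMult_of_basis _ _ (gm_u_injective E.D E.F)
    (gm_u_surjective E.D E.F) (asm_basis E).1 α]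
  rw [spec448, Multiset.count_map]
  have h1 : (Finset.univ.filter fun p : B4 => nh p = α)
      = (B4.filter fun p => nh p = α).subtype (fun p => p ∈ B4) := by
    ext p
    simp
  rw [h1, Finset.card_subtype]
  have h2 : (B4.filter fun p => nh p = α).filter (fun p => p ∈ B4)
      = B4.filter fun p => α = nh p := by
    ext p
    simp only [Finset.mem_filter]
    constructor
    · rintro ⟨⟨h1, h2⟩, -⟩
      exact ⟨h1, h2.symm⟩
    · rintro ⟨h1, h2⟩
      exact ⟨⟨h1, h2.symm⟩, h1⟩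
  rw [h2]
  rfl

/-- ASM4. -/
theorem asm_spectrum : IsSpectrum E.D E.F spec448 ∧
    ∀ s', IsSpectrum E.D E.F s' → s' = spec448 := by
  refine ⟨⟨_, pb_isVFiltration E, pb_count E⟩, ?_⟩
  rintro s' ⟨V', hV', hs'⟩
  have hV := vf_unique (thetaGM E.D E.F) (fun φ g => thetaGM_smul E.D E.F φ g)
    (gm_u_injective E.D E.F) (gm_u_surjective E.D E.F) V' _ hV' (pb_isVFiltration E)
  ext α
  rw [hs' α, pb_count E α, hV]

end

end Pool.Agent.Helper3.Hert
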